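import Pool.Agent.H41.AL.Defs

set_option autoImplicit false

/-!
# Correspondence packings: the step for row sums (helper117, for helper41)
-/

namespace Pool.Agent.H117.AL

open Equiv
open Pool.Agent.H41.AL

/-- the colour of `j` in the `k`-th permutation -/
def ck {n L : ℕ} (M : Fin L → Perm (Fin n)) (g : Perm (Fin n)) (j : Fin n) (k : Fin L) : Fin n :=
  g.symm (M k j)

theorem ck_iff {n L : ℕ} (M : Fin L → Perm (Fin n)) (g : Perm (Fin n)) (j : Fin n) (k : Fin L)
    (c : Fin n) : M k j = g c ↔ ck M g j k = c := by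
  unfold ck
  rw [Equiv.symm_apply_eq]

theorem ck_inj {n L : ℕ} {M : Fin L → Perm (Fin n)} (hM : Disj M) (g : Perm (Fin n)) (j : Fin n) :
    Function.Injective (ck M g j) := by
  intro k k' h
  by_contra hne
  exact hM k k' hne j (g.symm.injective h)

/-- change of a row sum -/
theorem row_diff {n L : ℕ} {M : Fin L → Perm (Fin n)} (hM : Disj M) (g : Perm (Fin n)) (W : Mx n)
    (j : Fin n) (k : Fin L) :
    rowS (upd M k g W) j - rowS W j = ∑ k' : Fin L,
      (if k' = k then - W j (ck M g j k') else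
        W j (ck M g j k') * ((L : ℝ) / (L - 1)) - W j (ck M g j k')) := by
  classical
  unfold rowS
  rw [← Finset.sum_sub_distrib]
  have h1 : ∑ c : Fin n, (upd M k g W j c - W j c) =
      ∑ c ∈ Finset.univ.image (ck M g j), (upd M k g W j c - W j c) := by
    symm
    apply Finset.sum_subset (Finset.subset_univ _)
    intro c _ hc
    have h2 : ∀ k', ck M g j k' ≠ c := fun k' hk' =>
      hc (Finset.mem_image.2 ⟨k', Finset.mem_univ _, hk'⟩)
    unfold upd
    rw [if_neg (fun h => h2 k ((ck_iff M g j k c).1 h)),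
      if_neg (fun ⟨k', h⟩ => h2 k' ((ck_iff M g j k' c).1 h)), sub_self]
  rw [h1, Finset.sum_image (fun a _ b _ h => ck_inj hM g j h)]
  refine Finset.sum_congr rfl fun k' _ => ?_
  by_cases hk : k' = k
  · rw [if_pos hk, hk]
    unfold upd
    rw [if_pos ((ck_iff M g j k _).2 rfl), zero_sub]
  · rw [if_neg hk]
    unfold upd
    rw [if_neg (fun h => hk ((ck_inj hM g j) ((ck_iff M g j k _).1 h)).symm),
      if_pos ⟨k', (ck_iff M g j k' _).2 rfl⟩]

theorem row_diff2 {n L : ℕ} {M : Fin L → Perm (Fin n)} (hL : 3 ≤ L) (hM : Disj M)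
    (g : Perm (Fin n)) (W : Mx n) (j : Fin n) (k : Fin L) :
    rowS (upd M k g W) j - rowS W j = - W j (ck M g j k) +
      ((∑ k' : Fin L, W j (ck M g j k')) - W j (ck M g j k)) / ((L : ℝ) - 1) := by
  classical
  have hL1 : (L : ℝ) - 1 ≠ 0 := by
    have : (3 : ℝ) ≤ L := by exact_mod_cast hL
    linarith
  rw [row_diff hM]
  have h1 : ∀ k' : Fin L, (if k' = k then - W j (ck M g j k') else
        W j (ck M g j k') * ((L : ℝ) / (L - 1)) - W j (ck M g j k')) =
      W j (ck M g j k') / ((L : ℝ) - 1) + (if k' = k then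
        - W j (ck M g j k') - W j (ck M g j k') / ((L : ℝ) - 1) else 0) := by
    intro k'
    split_ifs
    · ring
    · field_simp
      ring
  rw [Finset.sum_congr rfl fun k' _ => h1 k', Finset.sum_add_distrib, ← Finset.sum_div,
    Finset.sum_ite_eq' Finset.univ k, if_pos (Finset.mem_univ k)]
  ring

theorem exp_le {y : ℝ} (h : |y| ≤ 1) : Real.exp y ≤ 1 + y + y ^ 2 := by
  have h1 := (abs_le.1 (Real.abs_exp_sub_one_sub_id_le h)).2
  linarith

theorem stepr : S_STEPR := by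
  intro n L M g W A lam j hL hM hW hA hlam
  have hL3 : (3 : ℝ) ≤ L := by exact_mod_cast hL
  have hL1 : 0 < (L : ℝ) - 1 := by linarith
  obtain ⟨x, hx⟩ : ∃ x : Fin L → ℝ, x = fun k => W j (ck M g j k) := ⟨_, rfl⟩
  obtain ⟨S, hS⟩ : ∃ S : ℝ, S = ∑ k, x k := ⟨_, rfl⟩
  obtain ⟨Δ, hΔ⟩ : ∃ Δ : Fin L → ℝ, Δ = fun k => - x k + (S - x k) / ((L : ℝ) - 1) := ⟨_, rfl⟩
  have hx0 : ∀ k, 0 ≤ x k ∧ x k ≤ A := fun k => by rw [hx]; exact hW j _
  have hrow : ∀ k, rowS (upd M k g W) j = rowS W j + Δ k := by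
    intro k
    have := row_diff2 hL hM g W j k
    rw [hΔ, hS, hx]
    linarith
  have hsum : ∑ k, Δ k = 0 := by
    rw [hΔ, Finset.sum_add_distrib, Finset.sum_neg_distrib, ← Finset.sum_div,
      Finset.sum_sub_distrib, Finset.sum_const, Finset.card_univ, Fintype.card_fin,
      nsmul_eq_mul, ← hS]
    field_simp
    ring
  have hSx : ∀ k, 0 ≤ S - x k ∧ S - x k ≤ ((L : ℝ) - 1) * A := by
    intro k
    have h1 : S - x k = ∑ k' ∈ Finset.univ.erase k, x k' := by
      rw [hS, ← Finset.add_sum_erase Finset.univ x (Finset.mem_univ k)]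
      ring
    rw [h1]
    refine ⟨Finset.sum_nonneg fun k' _ => (hx0 k').1, ?_⟩
    refine (Finset.sum_le_card_nsmul _ _ A fun k' _ => (hx0 k').2).trans (le_of_eq ?_)
    rw [Finset.card_erase_of_mem (Finset.mem_univ k), Finset.card_univ, Fintype.card_fin,
      nsmul_eq_mul, Nat.cast_sub (by omega), Nat.cast_one]
  have hΔA : ∀ k, |Δ k| ≤ A := by
    intro k
    have h1 : 0 ≤ (S - x k) / ((L : ℝ) - 1) := div_nonneg (hSx k).1 hL1.le
    have h2 : (S - x k) / ((L : ℝ) - 1) ≤ A := by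
      rw [div_le_iff₀ hL1, mul_comm]
      exact (hSx k).2
    have h3 := hx0 k
    rw [hΔ, abs_le]
    constructor <;> simp only <;> linarith
  have hterm : ∀ k, Real.exp (lam * Δ k) ≤ 1 + lam * Δ k + lam ^ 2 * A ^ 2 := by
    intro k
    have h1 : |lam * Δ k| ≤ 1 := by
      rw [abs_mul]
      refine le_trans (mul_le_mul_of_nonneg_left ((hΔA k).trans ?_) (abs_nonneg _)) hlam
      nlinarith
    refine (exp_le h1).trans ?_
    have h2 : (lam * Δ k) ^ 2 ≤ lam ^ 2 * A ^ 2 := by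
      rw [mul_pow]
      refine mul_le_mul_of_nonneg_left ?_ (sq_nonneg _)
      rw [← sq_abs (Δ k)]
      exact pow_le_pow_left₀ (abs_nonneg _) (hΔA k) 2
    linarith
  have hexp : ∀ k, Real.exp (lam * (rowS (upd M k g W) j - n)) =
      Real.exp (lam * Δ k) * Real.exp (lam * (rowS W j - n)) := by
    intro k
    rw [hrow, ← Real.exp_add]
    congr 1
    ring
  rw [Finset.sum_congr rfl fun k _ => hexp k, ← Finset.sum_mul, ← mul_assoc]
  refine mul_le_mul_of_nonneg_right ?_ (Real.exp_pos _).le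
  have h1 : ∑ k, Real.exp (lam * Δ k) ≤ L * (1 + lam ^ 2 * A ^ 2) := by
    refine (Finset.sum_le_sum fun k _ => hterm k).trans (le_of_eq ?_)
    rw [Finset.sum_add_distrib, Finset.sum_add_distrib, ← Finset.mul_sum, hsum, Finset.sum_const,
      Finset.sum_const, Finset.card_univ, Fintype.card_fin, nsmul_eq_mul, nsmul_eq_mul]
    ring
  refine h1.trans (mul_le_mul_of_nonneg_left ?_ (Nat.cast_nonneg _))
  have h2 := Real.add_one_le_exp (25 * lam ^ 2 * A ^ 4)
  have h3 : A ^ 2 ≤ A ^ 4 := pow_le_pow_right₀ hA (by norm_num)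
  have h4 : lam ^ 2 * A ^ 2 ≤ lam ^ 2 * A ^ 4 := mul_le_mul_of_nonneg_left h3 (sq_nonneg _)
  have h5 : 0 ≤ lam ^ 2 * A ^ 4 := by positivity
  linarith

end Pool.Agent.H117.AL
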